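import Pool.Agent.R167.CL.Stm

/-!
# AREA: a convex set with three parallel chords of lengths `w/2`, `w`, `w/2`
-/

set_option autoImplicit false

namespace Pool.Agent.R167.CL

open MeasureTheory Set

theorem area_slice (P : Set (ℝ × ℝ)) (p x a c α β : ℝ) (hpx : p < x) (hα : 0 ≤ α) (hβ : 0 ≤ β)
    (hc : Convex ℝ P) (h1 : (p, a) ∈ P) (h2 : (p, a + α) ∈ P) (h3 : (x, c) ∈ P)
    (h4 : (x, c + β) ∈ P) :
    ENNReal.ofReal ((α + β) / 2 * (x - p)) ≤ volume (P ∩ (Ioo p x ×ˢ (univ : Set ℝ))) := by
  have hd : 0 < x - p := sub_pos.2 hpx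
  set lo : ℝ → ℝ := fun s => a + (c - a) / (x - p) * (s - p) with hlo
  set hi : ℝ → ℝ := fun s => a + α + (c + β - a - α) / (x - p) * (s - p) with hhi
  have hcl : Continuous lo := by fun_prop
  have hch : Continuous hi := by fun_prop
  have hle : ∀ s ∈ Ioo p x, lo s ≤ hi s := by
    intro s hs
    have e : hi s - lo s = ((x - s) * α + (s - p) * β) / (x - p) := by
      simp only [hlo, hhi]; field_simp; ring
    have : 0 ≤ hi s - lo s := by
      rw [e]
      apply div_nonneg _ hd.le
      have := mul_nonneg (sub_nonneg.2 hs.2.le) hα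
      have := mul_nonneg (sub_nonneg.2 hs.1.le) hβ
      linarith
    linarith
  have hsub : regionBetween lo hi (Ioo p x) ⊆ P ∩ (Ioo p x ×ˢ (univ : Set ℝ)) := by
    rintro ⟨s, t⟩ ⟨hs, ht⟩
    refine ⟨?_, hs, mem_univ _⟩
    simp only at hs ht
    -- the two end points of the slice
    have hl0 : 0 ≤ (x - s) / (x - p) := div_nonneg (sub_nonneg.2 hs.2.le) hd.le
    have hl1 : 0 ≤ (s - p) / (x - p) := div_nonneg (sub_nonneg.2 hs.1.le) hd.le
    have hl2 : (x - s) / (x - p) + (s - p) / (x - p) = 1 := by field_simp; ring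
    have hA : (s, lo s) ∈ P := by
      have := hc h1 h3 hl0 hl1 hl2
      convert this using 1
      simp only [hlo, Prod.smul_mk, smul_eq_mul, Prod.mk_add_mk, Prod.mk.injEq]
      constructor
      · field_simp; ring
      · field_simp; ring
    have hB : (s, hi s) ∈ P := by
      have := hc h2 h4 hl0 hl1 hl2
      convert this using 1
      simp only [hhi, Prod.smul_mk, smul_eq_mul, Prod.mk_add_mk, Prod.mk.injEq]
      constructor
      · field_simp; ring
      · field_simp; ring
    have hlt : lo s < hi s := lt_trans ht.1 ht.2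
    have hd2 : 0 < hi s - lo s := sub_pos.2 hlt
    have := hc hA hB (div_nonneg (sub_nonneg.2 ht.2.le) hd2.le)
      (div_nonneg (sub_nonneg.2 ht.1.le) hd2.le) (by field_simp; ring)
    convert this using 1
    simp only [Prod.smul_mk, smul_eq_mul, Prod.mk_add_mk, Prod.mk.injEq]
    constructor
    · field_simp; ring
    · field_simp; ring
  refine le_trans (le_of_eq ?_) (measure_mono hsub)
  have hv := volume_regionBetween_eq_integral (μ := (volume : Measure ℝ)) (f := lo) (g := hi)
    (s := Ioo p x) (hcl.integrableOn_Icc.mono_set Ioo_subset_Icc_self)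
    (hch.integrableOn_Icc.mono_set Ioo_subset_Icc_self) measurableSet_Ioo hle
  rw [← Measure.volume_eq_prod] at hv
  rw [hv]
  congr 1
  rw [← integral_Ioc_eq_integral_Ioo, ← intervalIntegral.integral_of_le hpx.le]
  have e : ∀ s, (hi - lo) s = α + (β - α) / (x - p) * (s - p) := by
    intro s
    simp only [Pi.sub_apply, hlo, hhi]; field_simp; ring
  rw [intervalIntegral.integral_congr (fun s _ => e s)]
  rw [intervalIntegral.integral_add (by simp) (by
    apply Continuous.intervalIntegrable; fun_prop)]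
  rw [intervalIntegral.integral_const_mul, intervalIntegral.integral_sub (by simp) (by simp)]
  simp only [integral_id, intervalIntegral.integral_const, smul_eq_mul]
  field_simp
  ring

theorem t_AREA : S_AREA := by
  intro P hP hc p x q a b c w hpx hxq hpq hw h1 h2 h3 h4 h5 h6
  set e := MeasurableEquiv.finTwoArrow (α := ℝ) with he
  set P' : Set (ℝ × ℝ) := {z | ![z.1, z.2] ∈ P} with hP'
  have hvol : volume P = volume P' := by
    have hmp := (MeasureTheory.volume_preserving_finTwoArrow ℝ)
    have := hmp.measure_preimage_equiv P'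
    rw [← this]
    congr 1
    ext v
    simp only [hP', mem_preimage, mem_ofPred_eq, MeasurableEquiv.finTwoArrow_apply]
    have : ![v 0, v 1] = v := by ext i; fin_cases i <;> simp
    rw [this]
  have hcont : Continuous (fun z : ℝ × ℝ => (![z.1, z.2] : Fin 2 → ℝ)) := by fun_prop
  have hm : MeasurableSet P' := (hP.isClosed.preimage hcont).measurableSet
  have hc' : Convex ℝ P' := by
    rintro ⟨s, t⟩ hs ⟨s', t'⟩ hs' α β hα hβ hαβ
    have := hc hs hs' hα hβ hαβ
    simp only [hP', mem_ofPred_eq]
    convert this using 1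
    ext i; fin_cases i <;> simp
  rw [hvol]
  have hdis : Disjoint (P' ∩ (Ioo p x ×ˢ (univ : Set ℝ))) (P' ∩ (Ioo x q ×ˢ (univ : Set ℝ))) := by
    rw [Set.disjoint_left]
    rintro ⟨s, t⟩ ⟨-, hs, -⟩ ⟨-, hs', -⟩
    exact absurd (lt_trans hs.2 hs'.1) (lt_irrefl _)
  have hle : volume (P' ∩ (Ioo p x ×ˢ (univ : Set ℝ))) + volume (P' ∩ (Ioo x q ×ˢ (univ : Set ℝ)))
      ≤ volume P' := by
    rw [← measure_union hdis (hm.inter (measurableSet_Ioo.prod MeasurableSet.univ))]
    exact measure_mono (union_subset inter_subset_left inter_subset_left)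
  refine le_trans ?_ hle
  have g1 : ENNReal.ofReal (3 / 4 * w * (x - p)) ≤
      volume (P' ∩ (Ioo p x ×ˢ (univ : Set ℝ))) := by
    rcases hpx.lt_or_eq with h | h
    · have := area_slice P' p x a c (w / 2) w h (by linarith) hw.le hc' h1 h2 h3 h4
      refine le_trans (le_of_eq ?_) this
      congr 1; ring
    · subst h; simp
  have g2 : ENNReal.ofReal (3 / 4 * w * (q - x)) ≤
      volume (P' ∩ (Ioo x q ×ˢ (univ : Set ℝ))) := by
    rcases hxq.lt_or_eq with h | h
    · have := area_slice P' x q c b w (w / 2) h hw.le (by linarith) hc' h3 h4 h5 h6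
      refine le_trans (le_of_eq ?_) this
      congr 1; ring
    · subst h; simp
  refine le_trans (le_of_eq ?_) (add_le_add g1 g2)
  rw [← ENNReal.ofReal_add (by have := sub_nonneg.2 hpx; positivity)
    (by have := sub_nonneg.2 hxq; positivity)]
  congr 1; ring

end Pool.Agent.R167.CL
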