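import Pool.Agent.R167.CL.Stm

/-!
# The real inequality behind the profile inequality
-/

set_option autoImplicit false

namespace Pool.Agent.R167.CL

/-- the first bound -/
noncomputable def F1 (t h b : ℝ) : ℝ :=
  (7 + 4 * h + h ^ 2) / 48 + (2 * t - 1) * (1.5 * t - h ^ 2) / 4 + 0.375 * t
      - b ^ 2 * (5 * t - 2) / 6 - 0.645 * t

/-- the second bound -/
noncomputable def F2 (t h b : ℝ) : ℝ :=
  (7 + 4 * h + h ^ 2) / 48 + (1.5 * t - h ^ 2) / 4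
      + (t - 1 / 2) * (h ^ 2 + h * b + b ^ 2) / 3 + (1 - t) * b ^ 2 / 3 - 0.645 * t

/-- the third bound -/
noncomputable def F3 (t h b : ℝ) : ℝ :=
  (1 + h + h ^ 2) / 6
      + (t - 1 / 2) * (h ^ 2 + h * b + b ^ 2) / 3 + (1 - t) * b ^ 2 / 3 - 0.645 * t

theorem F1_anti {t h b β : ℝ} (ht : 1 / 2 ≤ t) (hb : 0 ≤ b) (hbβ : b ≤ β) :
    F1 t h β ≤ F1 t h b := by
  unfold F1
  have : b ^ 2 ≤ β ^ 2 := pow_le_pow_left₀ hb hbβ 2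
  nlinarith

theorem F2_mono {t h b β : ℝ} (ht : 1 / 2 ≤ t) (ht1 : t ≤ 1) (hh : 0 ≤ h) (hβ : 0 ≤ β) (hbβ : β ≤ b) :
    F2 t h β ≤ F2 t h b := by
  unfold F2
  have h1 : β ^ 2 ≤ b ^ 2 := pow_le_pow_left₀ hβ hbβ 2
  have h2 : h * β ≤ h * b := mul_le_mul_of_nonneg_left hbβ hh
  have h3 : 0 ≤ t - 1 / 2 := by linarith
  have h4 : 0 ≤ 1 - t := by linarith
  nlinarith [mul_nonneg h3 (sub_nonneg.2 h1), mul_nonneg h3 (sub_nonneg.2 h2), mul_nonneg h4 (sub_nonneg.2 h1)]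

theorem F3_mono {t h b β : ℝ} (ht : 1 / 2 ≤ t) (ht1 : t ≤ 1) (hh : 0 ≤ h) (hβ : 0 ≤ β) (hbβ : β ≤ b) :
    F3 t h β ≤ F3 t h b := by
  unfold F3
  have h1 : β ^ 2 ≤ b ^ 2 := pow_le_pow_left₀ hβ hbβ 2
  have h2 : h * β ≤ h * b := mul_le_mul_of_nonneg_left hbβ hh
  have h3 : 0 ≤ t - 1 / 2 := by linarith
  have h4 : 0 ≤ 1 - t := by linarith
  nlinarith [mul_nonneg h3 (sub_nonneg.2 h1), mul_nonneg h3 (sub_nonneg.2 h2), mul_nonneg h4 (sub_nonneg.2 h1)]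

theorem F1_A {t h : ℝ} (h1 : 1 / 2 ≤ t) (h2 : t ≤ 8 / 9) (h3 : 1 / 2 ≤ h) (h4 : h ≤ 3 / 4) :
    0 < F1 t h 0.53 := by
  unfold F1
  nlinarith [mul_nonneg (sub_nonneg.2 h1) (sub_nonneg.2 h4), mul_nonneg (sub_nonneg.2 h1) (sub_nonneg.2 h2),
    mul_nonneg (sub_nonneg.2 h3) (sub_nonneg.2 h4), mul_nonneg (mul_nonneg (sub_nonneg.2 h1) (sub_nonneg.2 h3)) (sub_nonneg.2 h4),
    sq_nonneg (t - 0.7), sq_nonneg (h - 3/4)]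

theorem F1_C {t h : ℝ} (h1 : 1 / 2 ≤ t) (h2 : t ≤ 8 / 9) (h3 : 3 / 4 ≤ h) (h4 : h ≤ 4 / 5) :
    0 < F1 t h 0.52 := by
  unfold F1
  nlinarith [mul_nonneg (sub_nonneg.2 h1) (sub_nonneg.2 h4), mul_nonneg (sub_nonneg.2 h1) (sub_nonneg.2 h2),
    mul_nonneg (sub_nonneg.2 h3) (sub_nonneg.2 h4), mul_nonneg (mul_nonneg (sub_nonneg.2 h1) (sub_nonneg.2 h3)) (sub_nonneg.2 h4),
    sq_nonneg (t - 0.7), sq_nonneg (h - 3/4)]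

theorem F1_D {t h : ℝ} (h1 : 1 / 2 ≤ t) (h2 : t ≤ 8 / 9) (h3 : 4 / 5 ≤ h) (h4 : h ≤ 9 / 10) :
    0 < F1 t h 0.48 := by
  unfold F1
  nlinarith [mul_nonneg (sub_nonneg.2 h1) (sub_nonneg.2 h4), mul_nonneg (sub_nonneg.2 h1) (sub_nonneg.2 h2),
    mul_nonneg (sub_nonneg.2 h3) (sub_nonneg.2 h4), mul_nonneg (mul_nonneg (sub_nonneg.2 h1) (sub_nonneg.2 h3)) (sub_nonneg.2 h4),
    sq_nonneg (t - 0.8), sq_nonneg (h - 3/4)]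

theorem F1_E {t h : ℝ} (h1 : 1 / 2 ≤ t) (h2 : t ≤ 8 / 9) (h3 : 9 / 10 ≤ h) (h4 : h ≤ 1) :
    0 < F1 t h 0.3 := by
  unfold F1
  nlinarith [mul_nonneg (sub_nonneg.2 h1) (sub_nonneg.2 h4), mul_nonneg (sub_nonneg.2 h1) (sub_nonneg.2 h2),
    mul_nonneg (sub_nonneg.2 h3) (sub_nonneg.2 h4), mul_nonneg (mul_nonneg (sub_nonneg.2 h1) (sub_nonneg.2 h3)) (sub_nonneg.2 h4),
    sq_nonneg (t - 0.8), sq_nonneg (h - 3/4)]

theorem F2_B1 {t h : ℝ} (h1 : 3 / 5 ≤ t) (h2 : t ≤ 8 / 9) (h3 : 0.53 ≤ h) (h4 : h ≤ 7 / 10) :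
    0 < F2 t h 0.53 := by
  unfold F2
  nlinarith [mul_nonneg (sub_nonneg.2 h1) (sub_nonneg.2 h4), mul_nonneg (sub_nonneg.2 h1) (sub_nonneg.2 h2),
    mul_nonneg (sub_nonneg.2 h3) (sub_nonneg.2 h4), mul_nonneg (mul_nonneg (sub_nonneg.2 h1) (sub_nonneg.2 h3)) (sub_nonneg.2 h4),
    mul_nonneg (sub_nonneg.2 h2) (sub_nonneg.2 h4), mul_nonneg (mul_nonneg (sub_nonneg.2 h2) (sub_nonneg.2 h3)) (sub_nonneg.2 h4)]

theorem F2_B2 {t h : ℝ} (h1 : 7 / 10 ≤ t) (h2 : t ≤ 8 / 9) (h3 : 7 / 10 ≤ h) (h4 : h ≤ 3 / 4) :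
    0 < F2 t h 0.53 := by
  unfold F2
  nlinarith [mul_nonneg (sub_nonneg.2 h1) (sub_nonneg.2 h4), mul_nonneg (sub_nonneg.2 h1) (sub_nonneg.2 h2),
    mul_nonneg (sub_nonneg.2 h3) (sub_nonneg.2 h4), mul_nonneg (mul_nonneg (sub_nonneg.2 h1) (sub_nonneg.2 h3)) (sub_nonneg.2 h4),
    mul_nonneg (sub_nonneg.2 h2) (sub_nonneg.2 h4), mul_nonneg (mul_nonneg (sub_nonneg.2 h2) (sub_nonneg.2 h3)) (sub_nonneg.2 h4)]

theorem F2_B3 {t h : ℝ} (h1 : 1 / 2 ≤ t) (h2 : t ≤ 3 / 5) (h3 : 0.53 ≤ h) (h4 : h ≤ 3 / 5) :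
    0 < F2 t h 0.53 := by
  unfold F2
  nlinarith [mul_nonneg (sub_nonneg.2 h1) (sub_nonneg.2 h4), mul_nonneg (sub_nonneg.2 h1) (sub_nonneg.2 h2),
    mul_nonneg (sub_nonneg.2 h3) (sub_nonneg.2 h4), mul_nonneg (mul_nonneg (sub_nonneg.2 h1) (sub_nonneg.2 h3)) (sub_nonneg.2 h4),
    mul_nonneg (sub_nonneg.2 h2) (sub_nonneg.2 h4), mul_nonneg (mul_nonneg (sub_nonneg.2 h2) (sub_nonneg.2 h3)) (sub_nonneg.2 h4)]

theorem F3_B2 {t h : ℝ} (h1 : 1 / 2 ≤ t) (h2 : t ≤ 7 / 10) (h3 : 7 / 10 ≤ h) (h4 : h ≤ 3 / 4) :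
    0 < F3 t h 0.53 := by
  unfold F3
  nlinarith [mul_nonneg (sub_nonneg.2 h1) (sub_nonneg.2 h3), mul_nonneg (sub_nonneg.2 h2) (sub_nonneg.2 h3),
    mul_nonneg (mul_nonneg (sub_nonneg.2 h1) (sub_nonneg.2 h3)) (sub_nonneg.2 h3)]

theorem F3_B3 {t h : ℝ} (h1 : 1 / 2 ≤ t) (h2 : t ≤ 3 / 5) (h3 : 3 / 5 ≤ h) (h4 : h ≤ 3 / 4) :
    0 < F3 t h 0.53 := by
  unfold F3
  nlinarith [mul_nonneg (sub_nonneg.2 h1) (sub_nonneg.2 h3), mul_nonneg (sub_nonneg.2 h2) (sub_nonneg.2 h3),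
    mul_nonneg (mul_nonneg (sub_nonneg.2 h1) (sub_nonneg.2 h3)) (sub_nonneg.2 h3)]

theorem F3_C1 {t h : ℝ} (h1 : 1 / 2 ≤ t) (h2 : t ≤ 4 / 5) (h3 : 3 / 4 ≤ h) (h4 : h ≤ 4 / 5) :
    0 < F3 t h 0.52 := by
  unfold F3
  nlinarith [mul_nonneg (sub_nonneg.2 h1) (sub_nonneg.2 h3), mul_nonneg (sub_nonneg.2 h2) (sub_nonneg.2 h3),
    mul_nonneg (mul_nonneg (sub_nonneg.2 h1) (sub_nonneg.2 h3)) (sub_nonneg.2 h3)]

theorem F2_C2 {t h : ℝ} (h1 : 4 / 5 ≤ t) (h2 : t ≤ 8 / 9) (h3 : 3 / 4 ≤ h) (h4 : h ≤ 0.78) :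
    0 < F2 t h 0.52 := by
  unfold F2
  nlinarith [mul_nonneg (sub_nonneg.2 h1) (sub_nonneg.2 h4), mul_nonneg (sub_nonneg.2 h1) (sub_nonneg.2 h2),
    mul_nonneg (sub_nonneg.2 h3) (sub_nonneg.2 h4), mul_nonneg (mul_nonneg (sub_nonneg.2 h1) (sub_nonneg.2 h3)) (sub_nonneg.2 h4),
    mul_nonneg (sub_nonneg.2 h2) (sub_nonneg.2 h4), mul_nonneg (mul_nonneg (sub_nonneg.2 h2) (sub_nonneg.2 h3)) (sub_nonneg.2 h4)]

theorem F3_C2 {t h : ℝ} (h1 : 4 / 5 ≤ t) (h2 : t ≤ 8 / 9) (h3 : 0.78 ≤ h) (h4 : h ≤ 4 / 5) :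
    0 < F3 t h 0.52 := by
  unfold F3
  nlinarith [mul_nonneg (sub_nonneg.2 h1) (sub_nonneg.2 h3), mul_nonneg (sub_nonneg.2 h2) (sub_nonneg.2 h3),
    mul_nonneg (mul_nonneg (sub_nonneg.2 h1) (sub_nonneg.2 h3)) (sub_nonneg.2 h3)]

theorem F3_D {t h : ℝ} (h1 : 1 / 2 ≤ t) (h2 : t ≤ 8 / 9) (h3 : 4 / 5 ≤ h) (h4 : h ≤ 9 / 10) :
    0 < F3 t h 0.48 := by
  unfold F3
  nlinarith [mul_nonneg (sub_nonneg.2 h1) (sub_nonneg.2 h3), mul_nonneg (sub_nonneg.2 h2) (sub_nonneg.2 h3),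
    mul_nonneg (mul_nonneg (sub_nonneg.2 h1) (sub_nonneg.2 h3)) (sub_nonneg.2 h3)]

theorem F3_E {t h : ℝ} (h1 : 1 / 2 ≤ t) (h2 : t ≤ 8 / 9) (h3 : 9 / 10 ≤ h) (h4 : h ≤ 1) :
    0 < F3 t h 0.3 := by
  unfold F3
  nlinarith [mul_nonneg (sub_nonneg.2 h1) (sub_nonneg.2 h3), mul_nonneg (sub_nonneg.2 h2) (sub_nonneg.2 h3),
    mul_nonneg (mul_nonneg (sub_nonneg.2 h1) (sub_nonneg.2 h3)) (sub_nonneg.2 h3)]

theorem ineq {t h b : ℝ} (ht : 1 / 2 ≤ t) (ht1 : t ≤ 8 / 9) (hh : 1 / 2 ≤ h) (hh1 : h ≤ 1)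
    (hb : 0 ≤ b) (hbh : b ≤ h) : 0 < F1 t h b ∨ 0 < F2 t h b ∨ 0 < F3 t h b := by
  have m2 : ∀ {β : ℝ}, 0 ≤ β → β ≤ b → 0 < F2 t h β → 0 < F2 t h b := fun h1 h2 h3 =>
    lt_of_lt_of_le h3 (F2_mono ht (by linarith) (by linarith) h1 h2)
  have m3 : ∀ {β : ℝ}, 0 ≤ β → β ≤ b → 0 < F3 t h β → 0 < F3 t h b := fun h1 h2 h3 =>
    lt_of_lt_of_le h3 (F3_mono ht (by linarith) (by linarith) h1 h2)
  have m1 : ∀ {β : ℝ}, b ≤ β → 0 < F1 t h β → 0 < F1 t h b := fun h2 h3 =>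
    lt_of_lt_of_le h3 (F1_anti ht hb h2)
  rcases le_or_gt h (3 / 4) with c1 | c1
  · rcases le_or_gt b 0.53 with d | d
    · exact Or.inl (m1 d (F1_A ht ht1 hh c1))
    · right
      have e : 0.53 ≤ h := by linarith
      rcases le_or_gt t (3 / 5) with f | f
      · rcases le_or_gt h (3 / 5) with g | g
        · exact Or.inl (m2 (by norm_num) d.le (F2_B3 ht f e g))
        · exact Or.inr (m3 (by norm_num) d.le (F3_B3 ht f g.le c1))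
      · rcases le_or_gt h (7 / 10) with g | g
        · exact Or.inl (m2 (by norm_num) d.le (F2_B1 f.le ht1 e g))
        · rcases le_or_gt t (7 / 10) with i | i
          · exact Or.inr (m3 (by norm_num) d.le (F3_B2 ht i g.le c1))
          · exact Or.inl (m2 (by norm_num) d.le (F2_B2 i.le ht1 g.le c1))
  rcases le_or_gt h (4 / 5) with c2 | c2
  · rcases le_or_gt b 0.52 with d | d
    · exact Or.inl (m1 d (F1_C ht ht1 c1.le c2))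
    · right
      rcases le_or_gt t (4 / 5) with f | f
      · exact Or.inr (m3 (by norm_num) d.le (F3_C1 ht f c1.le c2))
      · rcases le_or_gt h 0.78 with g | g
        · exact Or.inl (m2 (by norm_num) d.le (F2_C2 f.le ht1 c1.le g))
        · exact Or.inr (m3 (by norm_num) d.le (F3_C2 f.le ht1 g.le c2))
  rcases le_or_gt h (9 / 10) with c3 | c3
  · rcases le_or_gt b 0.48 with d | d
    · exact Or.inl (m1 d (F1_D ht ht1 c2.le c3))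
    · exact Or.inr (Or.inr (m3 (by norm_num) d.le (F3_D ht ht1 c2.le c3)))
  · rcases le_or_gt b 0.3 with d | d
    · exact Or.inl (m1 d (F1_E ht ht1 c3.le hh1))
    · exact Or.inr (Or.inr (m3 (by norm_num) d.le (F3_E ht ht1 c3.le hh1)))

theorem t_INEQ : S_INEQ := by
  intro t h b h1 h2 h3 h4 h5 h6
  rcases ineq h1 h2 h3 h4 h5 h6 with h | h | h
  · left; unfold F1 at h; linarith
  · right; left; unfold F2 at h; linarith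
  · right; right; unfold F3 at h; linarith

end Pool.Agent.R167.CL
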