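import Pool.Agent.R167.CL.Stm

/-!
# Double lattice packings of density at least `0.43`: assembly
-/

set_option autoImplicit false

namespace Pool.Agent.R167.CL

open MeasureTheory
open Pool.Agent.TH219.DL
open Pool.Agent.H349R2.Tet (V lat dt Ov tr)

theorem t_LOW (hP : S_PROF) (hA : S_PLANE) (hS : S_SPACE) : S_LOW := by
  intro K hK hc hne
  obtain ⟨l, x0, hl, hx0, hmax⟩ := longest hK hne
  have hPc := shadow_compact hK
  have hPi := shadow_interior hne
  have hPpos : 0 < volume (G K 0) :=
    lt_of_lt_of_le (isOpen_interior.measure_pos volume hPi) (measure_mono interior_subset)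
  have ha0 : 0 < ar K 0 := ENNReal.toReal_pos hPpos.ne' hPc.measure_ne_top
  have hp := prof hK hc hl hx0 ha0
  set X := ∫ t in (0 : ℝ)..l, pf K t ^ 2 with hX
  set a0 := ar K 0 with ha0def
  have e0 : volume (G K 0) = ENNReal.ofReal a0 :=
    (ENNReal.ofReal_toReal hPc.measure_ne_top).symm
  have hvol : ENNReal.ofReal (a0 * X) ≤ volume K := by
    refine le_trans ?_ (vol_ge hK hc)
    rw [hX, ← lint_pf hK hp ha0 le_rfl hl.le le_rfl]
    exact lintegral_mono_set fun c hcc => le_of_lt hcc.1
  have e4 : ENNReal.ofReal 2 = 2 := by simp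
  rcases hP l (pf K) hp with hcase | ⟨s, hs1, hs2, hs3, hs4⟩
  · -- columns over a planar double lattice packing
    obtain ⟨u, w, y, hD0, hD0le, hpk, hho⟩ := hA (G K 0) hPc (shadow_convex hc) hPi
    obtain ⟨v, b, hb1, hb2, hb3⟩ := hS K hK hc hne l hl hmax u w y hD0 hpk hho
    have hD0le' : u 0 * w 1 - u 1 * w 0 ≤ 8 / 3 * a0 := by
      rw [e0, ← ENNReal.ofReal_mul (by norm_num), ENNReal.ofReal_le_ofReal_iff (by positivity)]
        at hD0le
      exact hD0le
    refine ⟨v, b, by rw [hb1]; positivity, hb2, hb3, ?_⟩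
    calc ENNReal.ofReal 0.43 * ENNReal.ofReal (dt b)
        = ENNReal.ofReal (0.43 * (l * (u 0 * w 1 - u 1 * w 0))) := by
          rw [hb1, ← ENNReal.ofReal_mul (by norm_num)]
      _ ≤ ENNReal.ofReal (2 * (a0 * X)) := by
          apply ENNReal.ofReal_le_ofReal
          have h1 : l * (u 0 * w 1 - u 1 * w 0) ≤ l * (8 / 3 * a0) :=
            mul_le_mul_of_nonneg_left hD0le' hl.le
          have h2 : a0 * (0.43 * (4 / 3) * l) ≤ a0 * X := mul_le_mul_of_nonneg_left hcase ha0.le
          nlinarith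
      _ = 2 * ENNReal.ofReal (a0 * X) := by rw [ENNReal.ofReal_mul (by norm_num), e4]
      _ ≤ 2 * volume K := by gcongr
  · have hs0 : 0 < s := by linarith
    have hXpos : 0 < X := by
      have : 0 < 0.43 * (3 / 2) * s := by positivity
      linarith
    set D := a0 * X / (0.43 * s) with hD
    have hDpos : 0 < D := by positivity
    obtain ⟨u, w, hD0, hD0le, hadm⟩ := fary (shadow_convex hc) hPc hPi
    set D0 := u 0 * w 1 - u 1 * w 0 with hD0def
    have hD0le' : D0 ≤ 3 / 2 * a0 := by
      rw [e0, ← ENNReal.ofReal_mul (by norm_num), ENNReal.ofReal_le_ofReal_iff (by positivity)]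
        at hD0le
      exact hD0le
    have hDD0 : D0 ≤ D := by
      refine hD0le'.trans ?_
      rw [hD, le_div_iff₀ (by positivity)]
      nlinarith
    set k := Real.sqrt (D / D0) with hk
    have hk1 : 1 ≤ k := by
      rw [hk]
      apply Real.one_le_sqrt.2
      rw [one_le_div hD0]; exact hDD0
    have hk2 : k ^ 2 * D0 = D := by
      rw [hk, Real.sq_sqrt (by positivity), div_mul_cancel₀ _ hD0.ne']
    have hadm' := adm_scale (hPi.mono interior_subset) hadm hk1
    have hdet : (k • u) 0 * (k • w) 1 - (k • u) 1 * (k • w) 0 = D := by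
      rw [← hk2, hD0def]; simp; ring
    have hlt : ∫⁻ x, Ph K s x < ENNReal.ofReal (D / 4) := by
      rw [lint_Ph hK hs0]
      have e1 : ∫⁻ τ in Set.Ioo (s / 2) s, volume (G K τ)
          = ENNReal.ofReal (a0 * ∫ t in (s / 2)..s, pf K t ^ 2) := by
        rw [← lint_pf hK hp ha0 (by linarith) (by linarith) hs2]
        exact setLIntegral_congr Ioo_ae_eq_Ioc
      have hint : 0 ≤ ∫ t in (s / 2)..s, pf K t ^ 2 :=
        intervalIntegral.integral_nonneg (by linarith) fun t _ => sq_nonneg _
      rw [e1, vol_pf hK ha0 hs0.le, ← ENNReal.ofReal_mul (by norm_num),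
        ← ENNReal.ofReal_mul (by positivity), ← ENNReal.ofReal_add (by positivity) (by positivity),
        ENNReal.ofReal_lt_ofReal_iff (by positivity)]
      rw [hD]
      have e2 : 1 / 2 * (a0 * pf K s ^ 2) + 1 / s * (a0 * ∫ t in (s / 2)..s, pf K t ^ 2)
          = a0 * (0.43 * (2 * s * pf K s ^ 2 + 4 * ∫ t in (s / 2)..s, pf K t ^ 2))
            / (0.43 * s) / 4 := by
        field_simp
        ring
      rw [e2]
      apply div_lt_div_of_pos_right _ (by norm_num)
      apply div_lt_div_of_pos_right _ (by positivity)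
      exact mul_lt_mul_of_pos_left hs4 ha0
    obtain ⟨v, b, hb1, hb2, hb3⟩ := double_pack hK hc hs0
      (fun x c hc0 hx => (hmax x c hc0 hx).trans (by linarith)) (by rw [hdet]; exact hDpos)
      hadm' (by rw [hdet]; exact hlt)
    rw [hdet] at hb1
    refine ⟨v, b, by rw [hb1]; positivity, hb2, hb3, ?_⟩
    rw [hb1, ← ENNReal.ofReal_mul (by norm_num)]
    have e3 : 0.43 * (2 * s * D) = 2 * (a0 * X) := by
      rw [hD]; field_simp
    rw [e3, ENNReal.ofReal_mul (by norm_num), e4]
    gcongr

open Pool.Agent.H349R2.Tet in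
/-- the lower bound for `δ_{L*}` -/
theorem dLs_low' (h : S_LOW) {K : Set V} (hK : Body K) : ENNReal.ofReal 0.43 ≤ dLs K := by
  obtain ⟨hKc, hc, hne⟩ := hK
  obtain ⟨v, b, hb0, h1, h2, h3⟩ := h K hKc hc hne
  have hli : LinearIndependent ℝ b := (dt_ne_zero_iff b).1 hb0.ne'
  have hle : den K (famLs v b) ≤ dLs K := by
    unfold dLs
    exact le_iSup_of_le v (le_iSup₂_of_le b ⟨hli, famLs_pack h1 h2⟩ le_rfl)
  refine le_trans ?_ ((den_famLs K v b).trans hle)
  rw [dens_eq b hli _ (hKc.union (rfl_compact hKc v)), abs_of_pos hb0]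
  rw [ENNReal.le_div_iff_mul_le (Or.inl (by
    rw [ne_eq, ENNReal.ofReal_eq_zero, not_le]; exact hb0)) (Or.inl ENNReal.ofReal_ne_top)]
  refine h3.trans ?_
  have hd : Disjoint (interior K) (interior (rfl' K v)) := by
    have := h2 0 (pack_zero_mem b)
    have e : tr (rfl' K v) 0 = rfl' K v := by unfold tr; simp
    rwa [e] at this
  have hrc : Convex ℝ (rfl' K v) := by
    rintro _ ⟨x, hx, rfl⟩ _ ⟨y, hy, rfl⟩ α β hα hβ hαβ
    refine ⟨α • x + β • y, hc hx hy hα hβ hαβ, ?_⟩
    have e : v = α • v + β • v := by rw [← add_smul, hαβ, one_smul]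
    simp only [smul_sub]
    nth_rewrite 1 [e]
    abel
  calc 2 * volume K = volume (interior K) + volume (interior (rfl' K v)) := by
        rw [vol_int hc, vol_int hrc, vol_rfl hKc.measurableSet, two_mul]
    _ = volume (interior K ∪ interior (rfl' K v)) :=
        (measure_union hd isOpen_interior.measurableSet).symm
    _ ≤ volume (K ∪ rfl' K v) :=
        measure_mono (Set.union_subset_union interior_subset interior_subset)

end Pool.Agent.R167.CL
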