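import Pool.Agent.R167.CL.Stm

/-!
# Planar double lattice packings of density at least `3/4`
-/

set_option autoImplicit false

namespace Pool.Agent.R167.CL

open MeasureTheory Filter Topology

namespace Plane

theorem eta2 (Y : Fin 2 → ℝ) : Y = ![Y 0, Y 1] := by
  funext i
  fin_cases i <;> rfl

/-- a box around an interior point -/
theorem box {P : Set (Fin 2 → ℝ)} {x t : ℝ} (h : ![x, t] ∈ interior P) :
    ∃ r : ℝ, 0 < r ∧ ∀ a b : ℝ, |a - x| ≤ r → |b - t| ≤ r → ![a, b] ∈ P := by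
  rw [mem_interior_iff_mem_nhds, Metric.nhds_basis_closedBall.mem_iff] at h
  obtain ⟨r, hr, h⟩ := h
  refine ⟨r, hr, fun a b ha hb => h ?_⟩
  rw [Metric.mem_closedBall, dist_pi_le_iff hr.le]
  intro i
  fin_cases i
  · simpa [Real.dist_eq] using ha
  · simpa [Real.dist_eq] using hb

/-- the points over which there is a vertical chord of length `c` -/
def Ch (P : Set (Fin 2 → ℝ)) (c : ℝ) : Set ℝ := {x | ∃ t, ![x, t] ∈ P ∧ ![x, t + c] ∈ P}

theorem comb {P : Set (Fin 2 → ℝ)} (hc : Convex ℝ P) {x y s t a b : ℝ} (h1 : ![x, s] ∈ P)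
    (h2 : ![y, t] ∈ P) (ha : 0 ≤ a) (hb : 0 ≤ b) (hab : a + b = 1) :
    ![a * x + b * y, a * s + b * t] ∈ P := by
  have h := hc h1 h2 ha hb hab
  convert h using 1
  funext i
  fin_cases i <;> simp

theorem Ch_conv {P : Set (Fin 2 → ℝ)} (hc : Convex ℝ P) {x y c d a b : ℝ} (h1 : x ∈ Ch P c)
    (h2 : y ∈ Ch P d) (ha : 0 ≤ a) (hb : 0 ≤ b) (hab : a + b = 1) :
    a * x + b * y ∈ Ch P (a * c + b * d) := by
  obtain ⟨s, h3, h4⟩ := h1
  obtain ⟨t, h5, h6⟩ := h2
  refine ⟨a * s + b * t, comb hc h3 h5 ha hb hab, ?_⟩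
  have h := comb hc h4 h6 ha hb hab
  convert h using 2
  ring_nf

theorem Ch_anti {P : Set (Fin 2 → ℝ)} (hc : Convex ℝ P) {x c d : ℝ} (h1 : x ∈ Ch P c)
    (hd : 0 ≤ d) (hdc : d ≤ c) : x ∈ Ch P d := by
  rcases eq_or_lt_of_le (hd.trans hdc) with h0 | h0
  · have : d = c := by linarith
    rw [this]; exact h1
  obtain ⟨s, h3, h4⟩ := h1
  refine ⟨s, h3, ?_⟩
  have h := comb hc h3 h4 (a := 1 - d / c) (b := d / c)
    (by rw [sub_nonneg, div_le_one h0]; exact hdc) (by positivity) (by ring)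
  convert h using 2
  · ring
  · congr 1
    field_simp
    ring

theorem Ch_compact {P : Set (Fin 2 → ℝ)} (hP : IsCompact P) (c : ℝ) : IsCompact (Ch P c) := by
  have h1 : IsCompact (P ∩ (fun z : Fin 2 → ℝ => z + ![0, c]) ⁻¹' P) :=
    hP.inter_right (hP.isClosed.preimage (by fun_prop))
  have h2 := h1.image (f := fun z : Fin 2 → ℝ => z 0) (by fun_prop)
  convert h2 using 1
  ext x
  constructor
  · rintro ⟨t, h3, h4⟩
    refine ⟨![x, t], ⟨h3, ?_⟩, rfl⟩
    show ![x, t] + ![0, c] ∈ P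
    convert h4 using 1
    funext i
    fin_cases i <;> simp
  · rintro ⟨z, ⟨h3, h4⟩, rfl⟩
    refine ⟨z 1, by rw [← eta2]; exact h3, ?_⟩
    have h5 : z + ![0, c] ∈ P := h4
    convert h5 using 1
    funext i
    fin_cases i <;> simp

/-- a longest vertical chord -/
theorem longest {P : Set (Fin 2 → ℝ)} (hP : IsCompact P) (hne : (interior P).Nonempty) :
    ∃ w xs : ℝ, 0 < w ∧ xs ∈ Ch P w ∧ ∀ c x, x ∈ Ch P c → c ≤ w := by
  have h1 : IsCompact ((P ×ˢ P) ∩ {z : (Fin 2 → ℝ) × (Fin 2 → ℝ) | z.1 0 = z.2 0}) :=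
    (hP.prod hP).inter_right (isClosed_eq (by fun_prop) (by fun_prop))
  obtain ⟨Y, hY⟩ := hne
  rw [eta2 Y] at hY
  obtain ⟨r, hr, hbox⟩ := box hY
  have h2 : Y 0 ∈ Ch P r := by
    refine ⟨Y 1, hbox _ _ ?_ ?_, hbox _ _ ?_ ?_⟩
    · simp [hr.le]
    · simp [hr.le]
    · simp [hr.le]
    · rw [add_sub_cancel_left, abs_of_pos hr]
  have h3 : ((P ×ˢ P) ∩ {z : (Fin 2 → ℝ) × (Fin 2 → ℝ) | z.1 0 = z.2 0}).Nonempty := by
    obtain ⟨t, h4, h5⟩ := h2
    exact ⟨(![Y 0, t], ![Y 0, t + r]), ⟨⟨h4, h5⟩, rfl⟩⟩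
  obtain ⟨⟨z, z'⟩, ⟨⟨h4, h5⟩, h6⟩, h7⟩ := h1.exists_isMaxOn h3 (f := fun z => z.2 1 - z.1 1)
    (by fun_prop)
  have h8 : ∀ c x, x ∈ Ch P c → c ≤ z' 1 - z 1 := by
    rintro c x ⟨t, h8, h9⟩
    have h10 : (![x, t], ![x, t + c]) ∈ (P ×ˢ P) ∩
        {z : (Fin 2 → ℝ) × (Fin 2 → ℝ) | z.1 0 = z.2 0} := ⟨⟨h8, h9⟩, rfl⟩
    have h11 : (![x, t + c] : Fin 2 → ℝ) 1 - (![x, t] : Fin 2 → ℝ) 1 ≤ z' 1 - z 1 := h7 h10
    simp only [Matrix.cons_val_one] at h11
    have h12 : t + c - t ≤ z' 1 - z 1 := h11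
    linarith
  refine ⟨z' 1 - z 1, z 0, lt_of_lt_of_le hr (h8 _ _ h2), ⟨z 1, ?_, ?_⟩, h8⟩
  · rw [← eta2]; exact h4
  · have h9 : z 0 = z' 0 := h6
    rw [add_sub_cancel, h9, ← eta2]
    exact h5

/-- an interior point over the end of `Ch P (w/2)` is strictly between the ends of the chord -/
theorem key {P : Set (Fin 2 → ℝ)} (hc : Convex ℝ P) {p a w e : ℝ} (hw : 0 < w)
    (he : e = 1 ∨ e = -1) (hmin : ∀ x ∈ Ch P (w / 2), e * p ≤ e * x) (h1 : ![p, a] ∈ P)
    (h2 : ![p, a + w / 2] ∈ P) {t : ℝ} (hY : ![p, t] ∈ interior P) : a < t ∧ t < a + w / 2 := by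
  obtain ⟨r, hr, hbox⟩ := box hY
  set l : ℝ := r / (r + w) with hl
  have hl0 : 0 < l := by positivity
  have hl1 : l ≤ 1 := by rw [hl, div_le_one (by positivity)]; linarith
  have hlw : l * w ≤ r := by
    rw [hl, div_mul_eq_mul_div, div_le_iff₀ (by positivity)]
    nlinarith
  have hee : e * e = 1 := by rcases he with h | h <;> rw [h] <;> norm_num
  have hea : |e| = 1 := by rcases he with h | h <;> rw [h] <;> norm_num
  have hX : ![p - e * r, t] ∈ P := by
    apply hbox
    · rw [show p - e * r - p = - (e * r) by ring, abs_neg, abs_mul, hea, one_mul, abs_of_pos hr]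
    · simp [hr.le]
  have hcon : p - e * l * r ∉ Ch P (w / 2) := by
    intro h
    have h3 := hmin _ h
    have h4 : e * (p - e * l * r) = e * p - (e * e) * (l * r) := by ring
    rw [h4, hee, one_mul] at h3
    have : 0 < l * r := mul_pos hl0 hr
    linarith
  have habs : |p - e * l * r - p| ≤ r := by
    rw [show p - e * l * r - p = - (e * (l * r)) by ring, abs_neg, abs_mul, hea, one_mul,
      abs_of_pos (mul_pos hl0 hr)]
    nlinarith
  constructor
  · by_contra hcon2
    push Not at hcon2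
    apply hcon
    have h3 := comb hc h2 hX (a := 1 - l) (b := l) (by linarith) hl0.le (by ring)
    have h4 : ![p - e * l * r, t - r] ∈ P := by
      apply hbox _ _ habs
      rw [show t - r - t = - r by ring, abs_neg, abs_of_pos hr]
    have h5 : p - e * l * r ∈ Ch P ((1 - l) * (a + w / 2) + l * t - (t - r)) := by
      refine ⟨t - r, h4, ?_⟩
      convert h3 using 2
      · ring
      · congr 1
        ring
    refine Ch_anti hc h5 (by positivity) ?_
    nlinarith
  · by_contra hcon2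
    push Not at hcon2
    apply hcon
    have h3 := comb hc h1 hX (a := 1 - l) (b := l) (by linarith) hl0.le (by ring)
    have h4 : ![p - e * l * r, t + r] ∈ P := by
      apply hbox _ _ habs
      rw [show t + r - t = r by ring, abs_of_pos hr]
    have h5 : p - e * l * r ∈ Ch P (t + r - ((1 - l) * a + l * t)) := by
      refine ⟨(1 - l) * a + l * t, ?_, ?_⟩
      · convert h3 using 2
        ring
      · convert h4 using 2
        congr 1
        ring
    refine Ch_anti hc h5 (by positivity) ?_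
    nlinarith

/-- interior points are close to the longest chord -/
theorem near {P : Set (Fin 2 → ℝ)} (hc : Convex ℝ P) {p w xs e x t : ℝ}
    (he : e = 1 ∨ e = -1) (hmin : ∀ x ∈ Ch P (w / 2), e * p ≤ e * x) (hxs : xs ∈ Ch P w)
    (hY : ![x, t] ∈ interior P) : e * (2 * p - xs) < e * x := by
  obtain ⟨r, hr, hbox⟩ := box hY
  have hee : e * e = 1 := by rcases he with h | h <;> rw [h] <;> norm_num
  have hea : |e| = 1 := by rcases he with h | h <;> rw [h] <;> norm_num
  have h1 : x - e * r ∈ Ch P 0 := by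
    have h2 : ![x - e * r, t] ∈ P := by
      apply hbox
      · rw [show x - e * r - x = - (e * r) by ring, abs_neg, abs_mul, hea, one_mul, abs_of_pos hr]
      · simp [hr.le]
    exact ⟨t, h2, by rw [add_zero]; exact h2⟩
  have h2 := Ch_conv hc h1 hxs (a := 1 / 2) (b := 1 / 2) (by norm_num) (by norm_num) (by norm_num)
  have h3 := hmin _ (by convert h2 using 1; ring)
  have h4 : e * (1 / 2 * (x - e * r) + 1 / 2 * xs) = 1 / 2 * (e * x) - 1 / 2 * (e * e) * r
    + 1 / 2 * (e * xs) := by ring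
  rw [h4, hee] at h3
  linarith

theorem vert {P : Set (Fin 2 → ℝ)} {w : ℝ} (hmax : ∀ c x, x ∈ Ch P c → c ≤ w) {x s t : ℝ}
    (h1 : ![x, s] ∈ interior P) (h2 : ![x, t] ∈ interior P) : t - s < w := by
  obtain ⟨r, hr, hbox⟩ := box h2
  have h3 : x ∈ Ch P (t + r - s) := by
    refine ⟨s, interior_subset h1, ?_⟩
    rw [add_sub_cancel]
    apply hbox
    · simp [hr.le]
    · rw [add_sub_cancel_left, abs_of_pos hr]
  have := hmax _ _ h3
  linarith

theorem combI {P : Set (Fin 2 → ℝ)} (hc : Convex ℝ P) {x y s t a b : ℝ}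
    (h1 : ![x, s] ∈ interior P) (h2 : ![y, t] ∈ P) (ha : 0 < a) (hb : 0 ≤ b) (hab : a + b = 1) :
    ![a * x + b * y, a * s + b * t] ∈ interior P := by
  have h := hc.combo_interior_self_mem_interior h1 h2 ha hb hab
  convert h using 1
  funext i
  fin_cases i <;> simp

theorem hole {P : Set (Fin 2 → ℝ)} (hc : Convex ℝ P) {p q a b w : ℝ} (hw : 0 < w)
    (hp : ∀ x ∈ Ch P (w / 2), p ≤ x) (hq : ∀ x ∈ Ch P (w / 2), x ≤ q)
    (h1 : ![p, a] ∈ P) (h2 : ![p, a + w / 2] ∈ P) (h3 : ![q, b] ∈ P) (h4 : ![q, b + w / 2] ∈ P)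
    (m n : ℤ) : ![p + m * (q - p), a + m * (b - a) + n * (w / 2)] ∉ interior P := by
  intro hY
  have kp : ∀ t, ![p, t] ∈ interior P → a < t ∧ t < a + w / 2 := fun t ht =>
    key hc hw (Or.inl rfl) (fun x hx => by rw [one_mul, one_mul]; exact hp x hx) h1 h2 ht
  have kq : ∀ t, ![q, t] ∈ interior P → b < t ∧ t < b + w / 2 := fun t ht =>
    key hc hw (Or.inr rfl) (fun x hx => by linarith [hq x hx]) h3 h4 ht
  have hw2 : 0 < w / 2 := by positivity
  rcases le_or_gt m 0 with hm | hm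
  · -- `m = -N`
    have hN : (0 : ℝ) ≤ -m := by
      have : (m : ℝ) ≤ 0 := by exact_mod_cast hm
      linarith
    have hN1 : (0 : ℝ) < -m + 1 := by linarith
    have hf : ∀ t, ![q, t] ∈ P → a < (a + m * (b - a) + n * (w / 2) - m * t) / (-m + 1) ∧
        (a + m * (b - a) + n * (w / 2) - m * t) / (-m + 1) < a + w / 2 := by
      intro t ht
      have h5 := combI hc hY ht (a := 1 / (-m + 1)) (b := -m / (-m + 1)) (by positivity)
        (by positivity) (by field_simp; ring)
      apply kp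
      convert h5 using 2
      · field_simp
        ring
      · congr 1
        field_simp
        ring
    have h6 := (hf _ h3).1
    have h7 := (hf _ h4).2
    rw [lt_div_iff₀ hN1] at h6
    rw [div_lt_iff₀ hN1] at h7
    have h8 : (0 : ℝ) < n := by
      by_contra hcon
      push Not at hcon
      nlinarith
    have h9 : (n : ℝ) < 1 := by
      by_contra hcon
      push Not at hcon
      nlinarith
    have h10 : (0 : ℤ) < n := by exact_mod_cast h8
    have h11 : n < 1 := by exact_mod_cast h9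
    omega
  · have hm1 : (1 : ℝ) ≤ m := by exact_mod_cast hm
    have hm0 : (0 : ℝ) < m := by linarith
    have hf : ∀ t, ![p, t] ∈ P → b < (a + m * (b - a) + n * (w / 2) + (m - 1) * t) / m ∧
        (a + m * (b - a) + n * (w / 2) + (m - 1) * t) / m < b + w / 2 := by
      intro t ht
      have h5 := combI hc hY ht (a := 1 / m) (b := (m - 1) / m) (by positivity)
        (div_nonneg (by linarith) hm0.le) (by field_simp; ring)
      apply kq
      convert h5 using 2
      · field_simp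
        ring
      · congr 1
        field_simp
    have h6 := (hf _ h1).1
    have h7 := (hf _ h2).2
    rw [lt_div_iff₀ hm0] at h6
    rw [div_lt_iff₀ hm0] at h7
    have h8 : (0 : ℝ) < n := by
      by_contra hcon
      push Not at hcon
      nlinarith
    have h9 : (n : ℝ) < 1 := by
      by_contra hcon
      push Not at hcon
      nlinarith
    have h10 : (0 : ℤ) < n := by exact_mod_cast h8
    have h11 : n < 1 := by exact_mod_cast h9
    omega

end Plane

open Plane in
theorem t_PLANE (h : S_AREA) : S_PLANE := by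
  intro P hP hc hne
  obtain ⟨w, xs, hw, hxs, hmax⟩ := Plane.longest hP hne
  have hxD : xs ∈ Ch P (w / 2) := Ch_anti hc hxs (by positivity) (by linarith)
  obtain ⟨p, hpD, hp⟩ := (Ch_compact hP (w / 2)).exists_isLeast ⟨xs, hxD⟩
  obtain ⟨q, hqD, hq⟩ := (Ch_compact hP (w / 2)).exists_isGreatest ⟨xs, hxD⟩
  have hp' : ∀ x ∈ Ch P (w / 2), p ≤ x := fun x hx => hp hx
  have hq' : ∀ x ∈ Ch P (w / 2), x ≤ q := fun x hx => hq hx
  have hpq : p < q := by
    obtain ⟨Y, hY⟩ := hne
    rw [eta2 Y] at hY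
    obtain ⟨r, hr, hbox⟩ := box hY
    have h1 : ∀ x, |x - Y 0| ≤ r → 1 / 2 * x + 1 / 2 * xs ∈ Ch P (w / 2) := by
      intro x hx
      have h2 : x ∈ Ch P 0 := by
        have h3 : ![x, Y 1] ∈ P := hbox _ _ hx (by simp [hr.le])
        exact ⟨Y 1, h3, by rw [add_zero]; exact h3⟩
      have h3 := Ch_conv hc h2 hxs (a := 1 / 2) (b := 1 / 2) (by norm_num) (by norm_num)
        (by norm_num)
      convert h3 using 1
      ring
    have h2 := hp' _ (h1 (Y 0) (by simp [hr.le]))
    have h3 := hq' _ (h1 (Y 0 + r) (by rw [add_sub_cancel_left, abs_of_pos hr]))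
    linarith
  obtain ⟨a, ha1, ha2⟩ := hpD
  obtain ⟨b, hb1, hb2⟩ := hqD
  obtain ⟨c, hc1, hc2⟩ := hxs
  refine ⟨![2 * (q - p), 2 * (b - a)], ![0, w], ![p, a], ?_, ?_, ?_, ?_⟩
  · simp only [Matrix.cons_val_zero, Matrix.cons_val_one]
    nlinarith [mul_pos (sub_pos.2 hpq) hw]
  · have h1 := h P hP hc p xs q a b c w (hp' _ hxD) (hq' _ hxD) hpq hw ha1 ha2 hc1 hc2 hb1 hb2
    simp only [Matrix.cons_val_zero, Matrix.cons_val_one]
    calc ENNReal.ofReal (2 * (q - p) * w - 2 * (b - a) * 0)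
        = ENNReal.ofReal (8 / 3) * ENNReal.ofReal (3 / 4 * w * (q - p)) := by
          rw [← ENNReal.ofReal_mul (by norm_num)]
          congr 1
          ring
      _ ≤ _ := by gcongr
  · intro m n hmn Y hY hYs
    have hYs' : Y - ((m : ℝ) • ![2 * (q - p), 2 * (b - a)] + (n : ℝ) • ![0, w])
        = ![Y 0 - 2 * m * (q - p), Y 1 - (2 * m * (b - a) + n * w)] := by
      funext i
      fin_cases i
      · simp
        ring
      · simp
        ring
    rw [hYs'] at hYs
    rw [eta2 Y] at hY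
    by_cases hm : m = 0
    · subst hm
      have hn : n ≠ 0 := by
        rcases hmn with h | h
        · exact absurd rfl h
        · exact h
      have e1 : Y 0 - 2 * ((0 : ℤ) : ℝ) * (q - p) = Y 0 := by simp
      have e2 : Y 1 - (2 * ((0 : ℤ) : ℝ) * (b - a) + n * w) = Y 1 - n * w := by simp
      rw [e1, e2] at hYs
      have h1 := vert hmax hY hYs
      have h2 := vert hmax hYs hY
      rcases lt_or_gt_of_ne hn with h3 | h3
      · have : (n : ℝ) ≤ -1 := by exact_mod_cast (by omega : n ≤ -1)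
        nlinarith
      · have : (1 : ℝ) ≤ n := by exact_mod_cast (by omega : 1 ≤ n)
        nlinarith
    · have hxs2 : xs ∈ Ch P w := ⟨c, hc1, hc2⟩
      have n1 : ∀ x t, ![x, t] ∈ interior P → 2 * p - xs < x := by
        intro x t hx
        have := near hc (Or.inl rfl) (p := p) (e := 1)
          (fun x hx => by rw [one_mul, one_mul]; exact hp' x hx) hxs2 hx
        linarith
      have n2 : ∀ x t, ![x, t] ∈ interior P → x < 2 * q - xs := by
        intro x t hx
        have := near hc (Or.inr rfl) (p := q) (e := -1)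
          (fun x hx => by linarith [hq' x hx]) hxs2 hx
        linarith
      have a1 := n1 _ _ hY
      have a2 := n2 _ _ hY
      have a3 := n1 _ _ hYs
      have a4 := n2 _ _ hYs
      have hqp := sub_pos.2 hpq
      rcases lt_or_gt_of_ne hm with h3 | h3
      · have : (m : ℝ) ≤ -1 := by exact_mod_cast (by omega : m ≤ -1)
        nlinarith
      · have : (1 : ℝ) ≤ m := by exact_mod_cast (by omega : 1 ≤ m)
        nlinarith
  · intro m n hY
    apply Plane.hole hc hw hp' hq' ha1 ha2 hb1 hb2 m n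
    convert hY using 1
    funext i
    fin_cases i
    · simp
      ring
    · simp
      ring

end Pool.Agent.R167.CL
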