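import Pool.Agent.R167.CL.Stm

/-!
# PROF: the inequality for concave profiles
-/

set_option autoImplicit false

namespace Pool.Agent.R167.CL

open MeasureTheory intervalIntegral
open Pool.Agent.TH219.DL

/-- the algebra -/
theorem prof_alg (hI : S_INEQ) (t h b k m p0 q1 j1 j2 r : ℝ) (ht1 : 1 / 2 < t) (ht2 : t ≤ 8 / 9)
    (hh1 : 1 / 2 ≤ h) (hh2 : h ≤ 1) (hb0 : 0 ≤ b) (hb1 : b ≤ h) (hk : (1 + h) / 2 ≤ k)
    (a1 : 0.645 * t = p0 + (q1 + j1) + (j2 + r)) (a2 : (1 + k + k ^ 2) / 12 ≤ p0)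
    (a3 : (1 + h + h ^ 2) / 6 ≤ p0 + (q1 + j1))
    (a4 : (t - 1 / 2) * (h ^ 2 + h * b + b ^ 2) / 3 ≤ j2) (a5 : (1 - t) * b ^ 2 / 3 ≤ r)
    (a6 : 0.645 * t ≤ 0.43 * (h ^ 2 + 4 * (q1 + j1)))
    (a7 : 0.645 * t ≤ 0.43 * (2 * t * b ^ 2 + 4 * (j1 + j2)))
    (a8 : j1 ≤ (1 - t) / 2 * m ^ 2) (a9 : (t / 2 - 1 / 4) * m ^ 2 ≤ q1) : False := by
  -- `j1 ≤ 2 (1 - t) q`
  have a10 : j1 ≤ 2 * (1 - t) * (q1 + j1) := by
    have h1 := mul_le_mul_of_nonneg_left a8 (show (0 : ℝ) ≤ 2 * t - 1 by linarith only [ht1])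
    have h2 := mul_le_mul_of_nonneg_left a9 (show (0 : ℝ) ≤ 2 * (1 - t) by linarith only [ht2])
    linarith only [h1, h2]
  have a11 : (7 + 4 * h + h ^ 2) / 48 ≤ p0 := by
    have h2 : ((1 + h) / 2) ^ 2 ≤ k ^ 2 := pow_le_pow_left₀ (by linarith only [hh1]) hk 2
    linarith only [h2, hk, a2]
  have a12 : (1.5 * t - h ^ 2) / 4 ≤ q1 + j1 := by linarith only [a6]
  have a13 : (2 * t - 1) * ((1.5 * t - h ^ 2) / 4) ≤ (2 * t - 1) * (q1 + j1) :=
    mul_le_mul_of_nonneg_left a12 (by linarith only [ht1])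
  have a14 : (1.5 * t - 2 * t * b ^ 2) / 4 - j1 ≤ j2 := by linarith only [a7]
  rcases hI t h b ht1.le ht2 hh1 hh2 hb0 hb1 with hi | hi | hi
  · linarith only [hi, a1, a11, a13, a14, a10, a5]
  · linarith only [hi, a1, a11, a12, a4, a5]
  · linarith only [hi, a1, a3, a4, a5]

theorem t_PROF (hI : S_INEQ) : S_PROF := by
  intro l f hf
  have hl := hf.l0
  by_contra hcon0
  rw [not_or] at hcon0
  obtain ⟨hx0, hcon⟩ := hcon0
  push Not at hx0 hcon
  have hfl0 := hf.nonneg l hl.le le_rfl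
  have hx1 := hf.low (a := 0) (b := l) le_rfl hl le_rfl
  rw [hf.one] at hx1
  set x := ∫ t in (0 : ℝ)..l, f t ^ 2 with hx
  have hx3 : l / 3 ≤ x := by
    have h1 : 0 ≤ (l - 0) * (1 * f l + f l ^ 2) / 3 := by
      have h2 : 0 ≤ 1 * f l + f l ^ 2 := by positivity
      have h' : 0 ≤ (l - 0) := by linarith
      positivity
    have e : (l - 0) * (1 ^ 2 + 1 * f l + f l ^ 2) / 3 = l / 3 + (l - 0) * (1 * f l + f l ^ 2) / 3 := by
      ring
    rw [e] at hx1
    linarith
  obtain ⟨t, ht⟩ : ∃ t, t = x / (0.645 * l) := ⟨_, rfl⟩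
  have hxt : x = l * (0.645 * t) := by
    rw [ht]; field_simp
  have ht1 : 1 / 2 < t := by
    rw [ht, lt_div_iff₀ (by positivity)]
    linarith
  have ht2 : t ≤ 8 / 9 := by
    rw [ht, div_le_iff₀ (by positivity)]
    linarith
  have hs1 : l / 2 < t * l := by nlinarith
  have hs2 : t * l < l := by nlinarith
  have c1 := hcon (l / 2) le_rfl (by linarith) (by linarith)
  have c2 := hcon (t * l) hs1.le hs2.le (by rw [hxt]; linarith)
  -- values
  have hk1 := hf.half (s := l / 2) (by linarith) (by linarith)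
  have hh1 := hf.half (s := l) hl le_rfl
  have hh2 := hf.le_one (s := l / 2) (by linarith) (by linarith)
  have hb1 := hf.anti (l / 2) (t * l) (by linarith) hs1.le hs2.le
  have hb0 := hf.nonneg (t * l) (by linarith) hs2.le
  -- lower bounds
  have p1 := hf.low (a := 0) (b := l / 2 / 2) le_rfl (by linarith) (by linarith)
  have p2 := hf.low (a := 0) (b := l / 2) le_rfl (by linarith) (by linarith)
  have p3 := hf.low (a := l / 2) (b := t * l) (by linarith) hs1 hs2.le
  have p4 := hf.low (a := t * l) (b := l) (by linarith) hs2 le_rfl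
  rw [hf.one] at p1 p2
  -- splittings
  have s1 : x = (∫ t in (0 : ℝ)..(l / 2), f t ^ 2) + ((∫ u in (l / 2)..(t * l), f u ^ 2) +
      ∫ u in (t * l)..l, f u ^ 2) := by
    rw [hx, intervalIntegral.integral_add_adjacent_intervals
      (hf.int (by linarith) hs1.le hs2.le) (hf.int (by linarith) hs2.le le_rfl),
      intervalIntegral.integral_add_adjacent_intervals
      (hf.int le_rfl (by linarith) (by linarith)) (hf.int (by linarith) (by linarith) le_rfl)]
  have s2 : ∫ t in (0 : ℝ)..(l / 2), f t ^ 2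
      = (∫ t in (0 : ℝ)..(l / 2 / 2), f t ^ 2) + ∫ t in (l / 2 / 2)..(l / 2), f t ^ 2 :=
    (intervalIntegral.integral_add_adjacent_intervals (hf.int le_rfl (by linarith) (by linarith))
      (hf.int (by linarith) (by linarith) (by linarith))).symm
  have s3 : ∫ t in (l / 2 / 2)..(l / 2), f t ^ 2
      = (∫ u in (l / 2 / 2)..(t * l / 2), f u ^ 2) + ∫ u in (t * l / 2)..(l / 2), f u ^ 2 :=
    (intervalIntegral.integral_add_adjacent_intervals
      (hf.int (by linarith) (by linarith) (by linarith))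
      (hf.int (by linarith) (by linarith) (by linarith))).symm
  have s4 : ∫ u in (t * l / 2)..(t * l), f u ^ 2
      = (∫ u in (t * l / 2)..(l / 2), f u ^ 2) + ∫ u in (l / 2)..(t * l), f u ^ 2 :=
    (intervalIntegral.integral_add_adjacent_intervals
      (hf.int (by linarith) (by linarith) (by linarith))
      (hf.int (by linarith) (by linarith) (by linarith))).symm
  -- the bounds by the value at `t l / 2`
  have u1 : ∫ u in (t * l / 2)..(l / 2), f u ^ 2 ≤ (l / 2 - t * l / 2) * f (t * l / 2) ^ 2 := by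
    calc ∫ u in (t * l / 2)..(l / 2), f u ^ 2
        ≤ ∫ _ in (t * l / 2)..(l / 2), f (t * l / 2) ^ 2 := by
          apply intervalIntegral.integral_mono_on (by linarith)
            (hf.int (by linarith) (by linarith) (by linarith)) intervalIntegrable_const
          intro u hu
          exact pow_le_pow_left₀ (hf.nonneg u (by linarith [hu.1]) (by linarith [hu.2]))
            (hf.anti _ _ (by linarith) (by linarith [hu.1]) (by linarith [hu.2])) 2
      _ = _ := by rw [intervalIntegral.integral_const, smul_eq_mul]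
  have u2 : (t * l / 2 - l / 2 / 2) * f (t * l / 2) ^ 2 ≤ ∫ u in (l / 2 / 2)..(t * l / 2), f u ^ 2 := by
    calc (t * l / 2 - l / 2 / 2) * f (t * l / 2) ^ 2
        = ∫ _ in (l / 2 / 2)..(t * l / 2), f (t * l / 2) ^ 2 := by
          rw [intervalIntegral.integral_const, smul_eq_mul]
      _ ≤ _ := by
          apply intervalIntegral.integral_mono_on (by linarith) intervalIntegrable_const
            (hf.int (by linarith) (by linarith) (by linarith))
          intro u hu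
          exact pow_le_pow_left₀ (hf.nonneg _ (by linarith) (by linarith))
            (hf.anti _ _ (by linarith [hu.1]) (by linarith [hu.2]) (by linarith)) 2
  rw [s4] at c2
  rw [s2] at s1 p2
  rw [s3] at s1 p2 c1
  set k := f (l / 2 / 2) with hk
  set h := f (l / 2) with hh
  set b := f (t * l) with hb
  set z := f l with hz
  set m := f (t * l / 2) with hm
  set P0 := ∫ t in (0 : ℝ)..(l / 2 / 2), f t ^ 2 with hP0
  set Q1 := ∫ u in (l / 2 / 2)..(t * l / 2), f u ^ 2 with hQ1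
  set J1 := ∫ u in (t * l / 2)..(l / 2), f u ^ 2 with hJ1
  set J2 := ∫ u in (l / 2)..(t * l), f u ^ 2 with hJ2
  set R := ∫ u in (t * l)..l, f u ^ 2 with hR
  -- normalise
  obtain ⟨p0, hp0⟩ : ∃ j, P0 = l * j := ⟨P0 / l, by field_simp⟩
  obtain ⟨q1, hq1⟩ : ∃ j, Q1 = l * j := ⟨Q1 / l, by field_simp⟩
  obtain ⟨j1, hj1⟩ : ∃ j, J1 = l * j := ⟨J1 / l, by field_simp⟩
  obtain ⟨j2, hj2⟩ : ∃ j, J2 = l * j := ⟨J2 / l, by field_simp⟩
  obtain ⟨r, hr⟩ : ∃ j, R = l * j := ⟨R / l, by field_simp⟩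
  rw [hp0] at s1 p1 p2
  rw [hq1] at s1 p2 c1 u2
  rw [hj1] at s1 p2 c1 c2 u1
  rw [hj2] at s1 c2 p3
  rw [hr] at s1 p4
  have a1 : 0.645 * t = p0 + (q1 + j1) + (j2 + r) := by
    have : l * (0.645 * t) = l * (p0 + (q1 + j1) + (j2 + r)) := by linarith only [s1, hxt]
    exact mul_left_cancel₀ hl.ne' this
  have a2 : (1 + k + k ^ 2) / 12 ≤ p0 := by
    have : l * ((1 + k + k ^ 2) / 12) ≤ l * p0 := by linarith only [p1]
    exact le_of_mul_le_mul_left this hl
  have a3 : (1 + h + h ^ 2) / 6 ≤ p0 + (q1 + j1) := by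
    have : l * ((1 + h + h ^ 2) / 6) ≤ l * (p0 + (q1 + j1)) := by linarith only [p2]
    exact le_of_mul_le_mul_left this hl
  have a4 : (t - 1 / 2) * (h ^ 2 + h * b + b ^ 2) / 3 ≤ j2 := by
    have : l * ((t - 1 / 2) * (h ^ 2 + h * b + b ^ 2) / 3) ≤ l * j2 := by
      refine le_trans (le_of_eq ?_) p3
      ring
    exact le_of_mul_le_mul_left this hl
  have a5 : (1 - t) * b ^ 2 / 3 ≤ r := by
    have h1 : l * ((1 - t) * (b ^ 2 + b * z + z ^ 2) / 3) ≤ l * r := by
      refine le_trans (le_of_eq ?_) p4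
      ring
    have h2 := le_of_mul_le_mul_left h1 hl
    have h3 : 0 ≤ (1 - t) * (b * z + z ^ 2) :=
      mul_nonneg (by linarith only [ht2]) (add_nonneg (mul_nonneg hb0 hfl0) (sq_nonneg _))
    linarith only [h2, h3]
  have a6 : 0.645 * t ≤ 0.43 * (h ^ 2 + 4 * (q1 + j1)) := by
    have : l * (0.645 * t) ≤ l * (0.43 * (h ^ 2 + 4 * (q1 + j1))) := by
      rw [← hxt]
      refine c1.trans (le_of_eq ?_)
      ring
    exact le_of_mul_le_mul_left this hl
  have a7 : 0.645 * t ≤ 0.43 * (2 * t * b ^ 2 + 4 * (j1 + j2)) := by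
    have : l * (0.645 * t) ≤ l * (0.43 * (2 * t * b ^ 2 + 4 * (j1 + j2))) := by
      rw [← hxt]
      refine c2.trans (le_of_eq ?_)
      ring
    exact le_of_mul_le_mul_left this hl
  have a8 : j1 ≤ (1 - t) / 2 * m ^ 2 := by
    have : l * j1 ≤ l * ((1 - t) / 2 * m ^ 2) := by
      refine u1.trans (le_of_eq ?_)
      ring
    exact le_of_mul_le_mul_left this hl
  have a9 : (t / 2 - 1 / 4) * m ^ 2 ≤ q1 := by
    have : l * ((t / 2 - 1 / 4) * m ^ 2) ≤ l * q1 := by
      refine le_trans (le_of_eq ?_) u2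
      ring
    exact le_of_mul_le_mul_left this hl
  have hk2 : (1 + h) / 2 ≤ k := by linarith only [hk1]
  have hhalf : 1 / 2 ≤ h := by linarith only [hh1, hfl0]
  exact prof_alg hI t h b k m p0 q1 j1 j2 r ht1 ht2 hhalf hh2 hb0 hb1 hk2 a1 a2 a3 a4 a5 a6 a7 a8 a9

end Pool.Agent.R167.CL
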