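import Pool.Agent.R167.CL.Stm

/-!
# Columns of `K` and of `v - K` over a planar double lattice packing of the shadow
-/

set_option autoImplicit false

namespace Pool.Agent.R167.CL

open MeasureTheory Filter Topology
open Pool.Agent.TH219.DL
open Pool.Agent.H349R2.Tet (V lat dt Ov tr)

theorem pr_open : IsOpenMap pr := by
  let L : (Fin 3 → ℝ) →ₗ[ℝ] (Fin 2 → ℝ) :=
    { toFun := pr
      map_add' := fun x y => by funext i; fin_cases i <;> simp [pr]
      map_smul' := fun c x => by funext i; fin_cases i <;> simp [pr] }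
  have hsurj : Function.Surjective L := fun x => ⟨cs 0 x, pr_cs 0 x⟩
  exact L.isOpenMap_of_finiteDimensional hsurj

theorem pr_int {K : Set V} {X : V} (hX : X ∈ interior K) : pr X ∈ interior (G K 0) := by
  rw [G_zero]
  exact (pr_open.image_interior_subset K) ⟨X, hX, rfl⟩

theorem t_SPACE : S_SPACE := by
  intro K hK hc hne l hl hmax u w y hD hpk hhole
  refine ⟨(2 : ℝ) • cs 0 y, bsh l 0 0 u w, dt_bsh _ _ _ _ _, ?_, ?_⟩
  · rintro v ⟨z, rfl⟩ hv0 ⟨x, hx, hxv⟩
    set v : V := ∑ i, (z i : ℝ) • bsh l 0 0 u w i with hv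
    have v0 : v 0 = z 0 * l := by
      rw [hv]; simp [Fin.sum_univ_three, bsh]
    have v1 : v 1 = z 1 * u 0 + z 2 * w 0 := by
      rw [hv]; simp [Fin.sum_univ_three, bsh]
    have v2 : v 2 = z 1 * u 1 + z 2 * w 1 := by
      rw [hv]; simp [Fin.sum_univ_three, bsh]
    by_cases h12 : z 1 ≠ 0 ∨ z 2 ≠ 0
    · apply hpk (z 1) (z 2) h12 (pr x) (pr_int hx)
      have h2 := pr_int hxv
      convert h2 using 1
      funext i
      fin_cases i
      · simp [v1]
      · simp [v2]
    · push Not at h12
      obtain ⟨hz1, hz2⟩ := h12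
      have v1' : v 1 = 0 := by rw [v1, hz1, hz2]; simp
      have v2' : v 2 = 0 := by rw [v2, hz1, hz2]; simp
      have hz0 : z 0 ≠ 0 := by
        intro h0
        apply hv0
        funext i
        fin_cases i
        · show v 0 = 0
          rw [v0, h0]; simp
        · exact v1'
        · exact v2'
      rcases lt_or_gt_of_ne hz0 with h | h
      · have h' : (z 0 : ℝ) ≤ -1 := by exact_mod_cast (by omega : z 0 ≤ -1)
        obtain ⟨ε, hε, hxε⟩ := interior_push hxv (cs 1 0)
        have hG : pr x ∈ G K (-v 0 + ε) := by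
          refine ⟨x 0, ?_, ?_⟩
          · rw [cs_pr]; exact interior_subset hx
          · convert hxε using 1
            symm
            apply cs_ext
            · simp; ring
            · simp [v1']
            · simp [v2']
        have hle := hmax _ _ (by rw [v0]; nlinarith) hG
        rw [v0] at hle
        nlinarith
      · have h' : (1 : ℝ) ≤ z 0 := by exact_mod_cast (by omega : 1 ≤ z 0)
        obtain ⟨ε, hε, hxε⟩ := interior_push hx (cs 1 0)
        have hG : pr (x - v) ∈ G K (v 0 + ε) := by
          refine ⟨(x - v) 0, ?_, ?_⟩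
          · rw [cs_pr]; exact interior_subset hxv
          · convert hxε using 1
            symm
            apply cs_ext
            · simp; ring
            · simp [v1']
            · simp [v2']
        have hle := hmax _ _ (by rw [v0]; nlinarith) hG
        rw [v0] at hle
        nlinarith
  · rintro s ⟨z, rfl⟩
    rw [Set.disjoint_left]
    intro X hX hX'
    set s : V := ∑ i, (z i : ℝ) • bsh l 0 0 u w i with hs
    have hpre : tr (rfl' K ((2 : ℝ) • cs 0 y)) s
        = (Homeomorph.subLeft ((2 : ℝ) • cs 0 y + s)) ⁻¹' K := by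
      ext t
      simp only [tr, rfl', Set.mem_image, Set.mem_preimage, Homeomorph.subLeft_apply]
      constructor
      · rintro ⟨_, ⟨y', hy', rfl⟩, rfl⟩
        have : (2 : ℝ) • cs 0 y + s - ((2 : ℝ) • cs 0 y - y' + s) = y' := by abel
        rw [this]; exact hy'
      · intro hy
        refine ⟨_, ⟨_, hy, rfl⟩, ?_⟩
        abel
    rw [hpre, ← Homeomorph.preimage_interior] at hX'
    have hX2 : (2 : ℝ) • cs 0 y + s - X ∈ interior K := hX'
    have hmid := hc.interior hX hX2 (show (0 : ℝ) ≤ 1 / 2 by norm_num)
      (show (0 : ℝ) ≤ 1 / 2 by norm_num) (by norm_num)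
    apply hhole (z 1) (z 2)
    have h2 := pr_int hmid
    convert h2 using 1
    funext i
    fin_cases i
    · rw [hs]
      simp [Fin.sum_univ_three, bsh]
      ring
    · rw [hs]
      simp [Fin.sum_univ_three, bsh]
      ring

end Pool.Agent.R167.CL
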