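import Pool.Agent.TH219.DL.Ulam

/-!
# Double lattice packings of convex bodies in space: density at least `0.43`. Statements.

Notation of `TH219.DL`: direction `0` is vertical, `G K c` = points of the plane with a vertical
chord of `K` of length `c`, `Prof l f` = profile, `rfl' K v = v - K`.
-/

set_option autoImplicit false

namespace Pool.Agent.R167.CL

open MeasureTheory
open Pool.Agent.TH219.DL
open Pool.Agent.H349R2.Tet (V lat dt Ov tr)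

/-- AREA. A convex set with three parallel chords of lengths `w/2`, `w`, `w/2`. -/
def S_AREA : Prop := ∀ P : Set (Fin 2 → ℝ), IsCompact P → Convex ℝ P →
  ∀ p x q a b c w : ℝ, p ≤ x → x ≤ q → p < q → 0 < w →
    ![p, a] ∈ P → ![p, a + w / 2] ∈ P → ![x, c] ∈ P → ![x, c + w] ∈ P →
    ![q, b] ∈ P → ![q, b + w / 2] ∈ P → ENNReal.ofReal (3 / 4 * w * (q - p)) ≤ volume P

/-- the lattice generated by `u, w` is a packing lattice of `P` -/
def Pk (P : Set (Fin 2 → ℝ)) (u w : Fin 2 → ℝ) : Prop :=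
  ∀ m n : ℤ, (m ≠ 0 ∨ n ≠ 0) → ∀ x ∈ interior P, x - ((m : ℝ) • u + (n : ℝ) • w) ∉ interior P

/-- no point of `y + (1/2) (ℤ u + ℤ w)` is interior to `P` -/
def Hole (P : Set (Fin 2 → ℝ)) (u w y : Fin 2 → ℝ) : Prop :=
  ∀ m n : ℤ, y + (((m : ℝ) / 2) • u + ((n : ℝ) / 2) • w) ∉ interior P

/-- PLANE. Every planar convex body has a double lattice packing of density at least `3/4`. -/
def S_PLANE : Prop := ∀ P : Set (Fin 2 → ℝ), IsCompact P → Convex ℝ P → (interior P).Nonempty →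
  ∃ u w y : Fin 2 → ℝ, 0 < u 0 * w 1 - u 1 * w 0 ∧
    ENNReal.ofReal (u 0 * w 1 - u 1 * w 0) ≤ ENNReal.ofReal (8 / 3) * volume P ∧
    Pk P u w ∧ Hole P u w y

/-- SPACE. Columns of `K` and of `v - K` over a planar double lattice packing of the shadow. -/
def S_SPACE : Prop := ∀ K : Set V, IsCompact K → Convex ℝ K → (interior K).Nonempty →
  ∀ l : ℝ, 0 < l → (∀ (x : Fin 2 → ℝ) (c : ℝ), 0 ≤ c → x ∈ G K c → c ≤ l) →
  ∀ u w y : Fin 2 → ℝ, 0 < u 0 * w 1 - u 1 * w 0 → Pk (G K 0) u w → Hole (G K 0) u w y →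
  ∃ (v : V) (b : Fin 3 → V), dt b = l * (u 0 * w 1 - u 1 * w 0) ∧
    (∀ s ∈ lat b, s ≠ 0 → ¬ Ov K s) ∧
    (∀ s ∈ lat b, Disjoint (interior K) (interior (tr (rfl' K v) s)))

/-- INEQ. The three lower bounds for the integral of the square of a profile. -/
def S_INEQ : Prop := ∀ t h b : ℝ, 1 / 2 ≤ t → t ≤ 8 / 9 → 1 / 2 ≤ h → h ≤ 1 → 0 ≤ b → b ≤ h →
  0.645 * t < (7 + 4 * h + h ^ 2) / 48 + (2 * t - 1) * (1.5 * t - h ^ 2) / 4 + 0.375 * t
      - b ^ 2 * (5 * t - 2) / 6 ∨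
  0.645 * t < (7 + 4 * h + h ^ 2) / 48 + (1.5 * t - h ^ 2) / 4
      + (t - 1 / 2) * (h ^ 2 + h * b + b ^ 2) / 3 + (1 - t) * b ^ 2 / 3 ∨
  0.645 * t < (1 + h + h ^ 2) / 6
      + (t - 1 / 2) * (h ^ 2 + h * b + b ^ 2) / 3 + (1 - t) * b ^ 2 / 3

/-- PROF. The inequality for profiles. -/
def S_PROF : Prop := ∀ (l : ℝ) (f : ℝ → ℝ), Prof l f →
  0.43 * (4 / 3) * l ≤ ∫ t in (0 : ℝ)..l, f t ^ 2 ∨
  ∃ s : ℝ, l / 2 ≤ s ∧ s ≤ l ∧ 0.43 * (3 / 2) * s ≤ ∫ t in (0 : ℝ)..l, f t ^ 2 ∧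
    0.43 * (2 * s * f s ^ 2 + 4 * ∫ t in (s / 2)..s, f t ^ 2) < ∫ t in (0 : ℝ)..l, f t ^ 2

/-- LOW. The double lattice packing of density at least `0.43`. -/
def S_LOW : Prop := ∀ K : Set V, IsCompact K → Convex ℝ K → (interior K).Nonempty →
  ∃ (v : V) (b : Fin 3 → V), 0 < dt b ∧
    (∀ s ∈ lat b, s ≠ 0 → ¬ Ov K s) ∧
    (∀ s ∈ lat b, Disjoint (interior K) (interior (tr (rfl' K v) s))) ∧
    ENNReal.ofReal 0.43 * ENNReal.ofReal (dt b) ≤ 2 * volume K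

end Pool.Agent.R167.CL
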